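import Pool.Agent.Y382.DN.Stm

/-!
Project DN (owner helper382), part CUBE: accepted sets without cubes are small.
-/

set_option autoImplicit false

namespace Pool.Agent.Y417.DN

open Finset Pool.Agent.Y622.NG Pool.Agent.Y382.DN

theorem card_image_det {α β γ : Type*} [DecidableEq β] [DecidableEq γ] (S : Finset α) (f : α → β)
    (g : α → γ) (h : ∀ x ∈ S, ∀ y ∈ S, g x = g y → f x = f y) :
    (S.image f).card ≤ (S.image g).card := by
  classical
  rcases S.eq_empty_or_nonempty with rfl | ⟨x0, -⟩
  · simp
  have : Nonempty α := ⟨x0⟩
  have hch : ∀ c ∈ S.image f, ∃ x ∈ S, f x = c := fun c hc => by simpa using hc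
  choose! σ hσ using hch
  refine Finset.card_le_card_of_injOn (fun c => g (σ c)) ?_ ?_
  · intro c hc
    exact mem_coe.2 (mem_image_of_mem g (hσ c hc).1)
  · intro c hc d hd hcd
    have h1 := h _ (hσ c hc).1 _ (hσ d hd).1 hcd
    rw [(hσ c hc).2, (hσ d hd).2] at h1
    exact h1

/-- the restriction to `U` -/
def res {n : ℕ} (U : Finset (Fin n)) (x : Fin n → Bool) : Fin n → Bool := mxs U x (fun _ => false)

theorem res_eq {n : ℕ} {U : Finset (Fin n)} {x y : Fin n → Bool} (h : ∀ k ∈ U, x k = y k) :
    res U x = res U y := by
  funext k
  by_cases hk : k ∈ U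
  · simp only [res, mxs_mem hk]; exact h k hk
  · simp only [res, mxs_not_mem hk]

theorem eq_of_res {n : ℕ} {U : Finset (Fin n)} {x y : Fin n → Bool} (h : res U x = res U y) {k : Fin n}
    (hk : k ∈ U) : x k = y k := by
  have := congrFun h k
  simpa only [res, mxs_mem hk] using this

theorem cnt {n : ℕ} (S : Finset (Fin n → Bool)) (U R F U' : Finset (Fin n)) (x0 : Fin n → Bool)
    (hR : ∀ x ∈ S, ∀ k ∈ R, x k = x0 k) (hU : U ⊆ R ∪ F ∪ U') :
    (S.image (res U)).card ≤ 2 ^ F.card * (S.image (res U')).card := by
  have h1 : (S.image (res U)).card ≤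
      (S.image (fun x => ((F.filter fun k => x k = true), res U' x))).card := by
    apply card_image_det
    intro x hx y hy hxy
    rw [Prod.mk.injEq] at hxy
    obtain ⟨h2, h3⟩ := hxy
    apply res_eq
    intro k hk
    rcases mem_union.1 (hU hk) with hk' | hk'
    · rcases mem_union.1 hk' with hk'' | hk''
      · rw [hR x hx k hk'', hR y hy k hk'']
      · have h4 : (k ∈ F.filter fun k => x k = true) ↔ (k ∈ F.filter fun k => y k = true) := by rw [h2]
        simp only [mem_filter, hk'', true_and] at h4
        cases hx' : x k <;> cases hy' : y k <;> simp_all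
    · exact eq_of_res h3 hk'
  refine h1.trans ?_
  have h5 : (S.image (fun x => ((F.filter fun k => x k = true), res U' x))) ⊆
      F.powerset ×ˢ (S.image (res U')) := by
    intro p hp
    obtain ⟨x, hx, rfl⟩ := mem_image.1 hp
    exact mem_product.2 ⟨mem_powerset.2 (filter_subset _ _), mem_image_of_mem _ hx⟩
  refine (card_le_card h5).trans ?_
  rw [card_product, card_powerset]

theorem free_cube {n : ℕ} {U F : Finset (Fin n)} {P : (Fin n → Bool) → Prop} {d : ℕ}
    (hF : F ⊆ U) (hd : d ≤ F.card) (x0 : Fin n → Bool)
    (h : ∀ p : Fin n → Bool, (∀ k ∉ F, p k = x0 k) → P p) : Cube U P d := by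
  classical
  obtain ⟨F', hF', hcard⟩ := Finset.exists_subset_card_eq hd
  let e : Fin d ≃ F' := (finCongr hcard.symm).trans F'.equivFin.symm
  refine ⟨fun j => {(e j : Fin n)}, x0, fun k => !x0 k, ?_, ?_, ?_, ?_⟩
  · intro j k hk
    rw [mem_singleton] at hk
    subst hk
    exact hF (hF' (e j).2)
  · intro i j hij
    rw [disjoint_singleton]
    intro h'
    exact hij (e.injective (Subtype.ext h'))
  · intro j
    exact ⟨e j, mem_singleton_self _, by simp⟩
  · intro J
    apply h
    intro k hk
    rw [if_neg]
    rintro ⟨j, -, hj⟩
    rw [mem_singleton] at hj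
    subst hj
    exact hk (hF' (e j).2)

theorem t_CUBE : S_WALK → S_REACH → S_CTX → S_CUBE := by
  intro hW hRe hCtx t
  induction t with
  | zero =>
    intro n s w C out U hU hno
    rw [pow_zero]
    refine card_le_one.2 ?_
    intro p hp q hq
    obtain ⟨x, hx, rfl⟩ := mem_image.1 hp
    obtain ⟨y, hy, rfl⟩ := mem_image.1 hq
    have hx' : C.val out x = true := (mem_filter.1 hx).2
    have hy' : C.val out y = true := (mem_filter.1 hy).2
    show res U x = res U y
    apply res_eq
    intro k hk
    by_contra hne
    apply hno
    refine ⟨fun _ => U, x, y, fun _ => subset_rfl, ?_, fun _ => ⟨k, hk, hne⟩, ?_⟩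
    · intro i j hij
      exact absurd (Fin.ext (by omega)) hij
    · intro J
      by_cases hJ : (0 : Fin 1) ∈ J
      · have h1 : C.val out (fun k => if ∃ j ∈ J, k ∈ U then y k else x k) = C.val out y := by
          apply C.dep
          intro k hk
          rw [if_pos ⟨0, hJ, hU hk⟩]
        show C.val out _ = true
        rw [← hy', ← h1]
      · have h1 : C.val out (fun k => if ∃ j ∈ J, k ∈ U then y k else x k) = C.val out x := by
          apply C.dep
          intro k hk
          rw [if_neg]
          rintro ⟨j, hj, -⟩
          rw [show j = 0 from Fin.ext (by omega)] at hj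
          exact hJ hj
        show C.val out _ = true
        rw [← hx', ← h1]
  | succ t ih =>
    intro n s w C out U hU hno
    have hs : 1 ≤ s := by have := out.2; omega
    let Phi : Fin s → Prop := fun v => ∃ x y, C.val v x = true ∧ C.val v y = true ∧
      ∃ k ∈ C.scope v, x k ≠ y k
    -- the number of restrictions of the inputs on which `v` is reached
    have hN : ∀ (v : Fin s), Phi v → ∀ S : Finset (Fin n → Bool), (∀ x ∈ S, Reach C out x v) →
        (S.image (res (U \ C.scope v))).card ≤ (2 ^ (w + 3 * t + 3) * (4 * s)) ^ t := by
      intro v hv S hS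
      obtain ⟨C', o, hdis, hsub, hval⟩ := hCtx n s w C out v
      have h1 : (S.image (res (U \ C.scope v))) ⊆ (acc C' o).image (res (U \ C.scope v)) := by
        apply image_subset_image
        intro x hx
        exact mem_filter.2 ⟨mem_univ _, (hval x).2 (hS x hx)⟩
      refine (card_le_card h1).trans ?_
      apply ih n (4 * s) w C' o (U \ C.scope v)
      · intro k hk
        exact mem_sdiff.2 ⟨hU (hsub hk), fun hk' => (disjoint_left.1 hdis) hk hk'⟩
      · rintro ⟨T, a, b, hT1, hT2, hT3, hT4⟩
        obtain ⟨y, z, hy, hz, k0, hk0, hk0'⟩ := hv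
        have hreach : ∀ J : Finset (Fin (t + 1)),
            Reach C out (fun k => if ∃ j ∈ J, k ∈ T j then b k else a k) v := fun J =>
          (hval _).1 (hT4 J)
        have hscope : C.scope v ⊆ U := ((hRe n s w C out v _ (hreach ∅)).1).trans hU
        have hTv : ∀ j k, k ∈ T j → k ∉ C.scope v := fun j k hk => (mem_sdiff.1 (hT1 j hk)).2
        apply hno
        refine ⟨Fin.cons (C.scope v) T, mxs (C.scope v) y a, mxs (C.scope v) z b, ?_, ?_, ?_, ?_⟩
        · intro j
          refine Fin.cases ?_ (fun i => ?_) j
          · simpa using hscope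
          · simp only [Fin.cons_succ]
            exact (hT1 i).trans sdiff_subset
        · intro i j
          refine Fin.cases ?_ (fun i' => ?_) i <;> refine Fin.cases ?_ (fun j' => ?_) j
          · intro h; exact absurd rfl h
          · intro _
            simp only [Fin.cons_zero, Fin.cons_succ]
            exact disjoint_left.2 fun k hk hk' => hTv j' k hk' hk
          · intro _
            simp only [Fin.cons_zero, Fin.cons_succ]
            exact disjoint_left.2 fun k hk hk' => hTv i' k hk hk'
          · intro h
            simp only [Fin.cons_succ]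
            exact hT2 i' j' fun h' => h (by rw [h'])
        · intro j
          refine Fin.cases ?_ (fun i => ?_) j
          · simp only [Fin.cons_zero]
            refine ⟨k0, hk0, ?_⟩
            rw [mxs_mem hk0, mxs_mem hk0]; exact hk0'
          · simp only [Fin.cons_succ]
            obtain ⟨k, hk, hk'⟩ := hT3 i
            refine ⟨k, hk, ?_⟩
            rw [mxs_not_mem (hTv i k hk), mxs_not_mem (hTv i k hk)]; exact hk'
        · intro J
          set p' : Fin n → Bool := fun k =>
            if ∃ j ∈ J, k ∈ (Fin.cons (C.scope v) T : Fin (t + 1 + 1) → Finset (Fin n)) j then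
              mxs (C.scope v) z b k else mxs (C.scope v) y a k with hp'
          set J' : Finset (Fin (t + 1)) := univ.filter fun i => i.succ ∈ J with hJ'
          have hoff : ∀ k ∉ C.scope v, (if ∃ j ∈ J', k ∈ T j then b k else a k) = p' k := by
            intro k hk
            rw [hp']
            simp only [mxs_not_mem hk]
            have hiff : (∃ j ∈ J', k ∈ T j) ↔
                ∃ j ∈ J, k ∈ (Fin.cons (C.scope v) T : Fin (t + 1 + 1) → Finset (Fin n)) j := by
              constructor
              · rintro ⟨j, hj, hjk⟩
                refine ⟨j.succ, (mem_filter.1 hj).2, ?_⟩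
                simpa using hjk
              · rintro ⟨j, hj, hjk⟩
                revert hj hjk
                refine Fin.cases ?_ (fun i => ?_) j
                · intro _ h; exact absurd (by simpa using h) hk
                · intro hj hjk
                  exact ⟨i, mem_filter.2 ⟨mem_univ _, hj⟩, by simpa using hjk⟩
            by_cases hc : ∃ j ∈ J', k ∈ T j
            · rw [if_pos hc, if_pos (hiff.1 hc)]
            · rw [if_neg hc, if_neg (fun h => hc (hiff.2 h))]
          have hR' : Reach C out p' v := (hRe n s w C out v _ (hreach J')).2.1 p' hoff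
          have hon : ∀ k ∈ C.scope v, p' k = if (0 : Fin (t + 1 + 1)) ∈ J then z k else y k := by
            intro k hk
            rw [hp']
            simp only [mxs_mem hk]
            by_cases h0 : (0 : Fin (t + 1 + 1)) ∈ J
            · rw [if_pos h0, if_pos ⟨0, h0, by simpa using hk⟩]
            · rw [if_neg h0, if_neg]
              rintro ⟨j, hj, hjk⟩
              revert hj hjk
              refine Fin.cases ?_ (fun i => ?_) j
              · intro hj _; exact h0 hj
              · intro _ hjk
                exact hTv i k (by simpa using hjk) hk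
          have hvv : C.val v p' = true := by
            by_cases h0 : (0 : Fin (t + 1 + 1)) ∈ J
            · rw [C.dep v p' z (fun k hk => by rw [hon k hk, if_pos h0])]; exact hz
            · rw [C.dep v p' y (fun k hk => by rw [hon k hk, if_neg h0])]; exact hy
          exact (hRe n s w C out v p' hR').2.2 hvv
    by_cases hPhi : Phi out
    · -- the walk
      have hwalk := hW n s w C out Phi (2 ^ (t + 1 + w) * (2 ^ (w + 3 * t + 3) * (4 * s)) ^ t)
        (res U) hPhi ?_ ?_ ?_
      · refine le_trans hwalk ?_
        have h1 : (2 ^ (w + 3 * (t + 1) + 3) * s) ^ (t + 1) =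
            (2 ^ (w + 3 * (t + 1) + 3) * s) * (2 ^ (w + 3 * (t + 1) + 3) * s) ^ t := by
          rw [pow_succ]; ring
        rw [h1]
        have h2 : 2 * s * (2 ^ (t + 1 + w) * (2 ^ (w + 3 * t + 3) * (4 * s)) ^ t) =
            (2 ^ (t + 2 + w) * s) * (2 ^ (w + 3 * t + 5) * s) ^ t := by
          have h3 : (2 : ℕ) ^ (w + 3 * t + 3) * (4 * s) = 2 ^ (w + 3 * t + 5) * s := by
            rw [show w + 3 * t + 5 = (w + 3 * t + 3) + 2 from by ring, pow_add]; ring
          rw [h3, show t + 2 + w = (t + 1 + w) + 1 from by ring, pow_succ 2 (t + 1 + w)]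
          ring
        rw [h2]
        have h4 : (2 : ℕ) ^ (t + 2 + w) ≤ 2 ^ (w + 3 * (t + 1) + 3) :=
          Nat.pow_le_pow_right (by norm_num) (by omega)
        have h5 : (2 : ℕ) ^ (w + 3 * t + 5) ≤ 2 ^ (w + 3 * (t + 1) + 3) :=
          Nat.pow_le_pow_right (by norm_num) (by omega)
        exact Nat.mul_le_mul (Nat.mul_le_mul_right s h4)
          (Nat.pow_le_pow_left (Nat.mul_le_mul_right s h5) t)
      · -- disjunctions
        intro v β hor hv hc
        set c := ch C v β with hcdef
        rcases (piece C out v c).eq_empty_or_nonempty with hemp | ⟨x0, hx0⟩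
        · rw [hemp]; simp
        have hpiece : ∀ x ∈ piece C out v c, Reach C out x v ∧ C.val c x = true := by
          intro x hx
          simp only [piece, mem_filter] at hx
          exact hx.2
        obtain ⟨hr0, hc0⟩ := hpiece x0 hx0
        obtain ⟨hsv, hr2, -⟩ := hRe n s w C out v x0 hr0
        obtain ⟨-, hsc, himp⟩ := ch_prop C hor β
        have hagree : ∀ x ∈ piece C out v c, ∀ k ∈ C.scope c, x k = x0 k := by
          intro x hx k hk
          by_contra hne
          exact hc ⟨x, x0, (hpiece x hx).2, hc0, k, hk, hne⟩
        have hF : (C.scope v \ C.scope c).card ≤ t + 1 := by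
          by_contra hlt
          push Not at hlt
          apply hno
          refine free_cube (F := C.scope v \ C.scope c) ?_ (by omega) x0 ?_
          · exact sdiff_subset.trans (hsv.trans hU)
          · intro p hp
            have h1 : Reach C out p v := hr2 p (fun k hk => (hp k (fun hk' =>
              hk (mem_sdiff.1 hk').1)).symm)
            have h2 : C.val c p = true := by
              rw [C.dep c p x0 (fun k hk => hp k (fun hk' => (mem_sdiff.1 hk').2 hk))]
              exact hc0
            exact (hRe n s w C out v p h1).2.2 (himp p h2)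
        have hcnt := cnt (piece C out v c) U (C.scope c) (C.scope v \ C.scope c) (U \ C.scope v) x0
          hagree (by
            intro k hk
            by_cases h1 : k ∈ C.scope v
            · by_cases h2 : k ∈ C.scope c
              · exact mem_union_left _ (mem_union_left _ h2)
              · exact mem_union_left _ (mem_union_right _ (mem_sdiff.2 ⟨h1, h2⟩))
            · exact mem_union_right _ (mem_sdiff.2 ⟨hk, h1⟩))
        refine hcnt.trans ?_
        refine Nat.mul_le_mul (Nat.pow_le_pow_right (by norm_num) (by omega)) ?_
        exact hN v hv _ fun x hx => (hpiece x hx).1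
      · -- conjunctions
        intro v a b hk hv hna hnb
        exfalso
        obtain ⟨x, y, hx, hy, k, hks, hne⟩ := hv
        obtain ⟨-, -, hsc, -, hval⟩ := C.and_ok v a b hk
        rw [hval, Bool.and_eq_true] at hx hy
        rw [hsc] at hks
        rcases mem_union.1 hks with h | h
        · exact hna ⟨x, y, hx.1, hy.1, k, h, hne⟩
        · exact hnb ⟨x, y, hx.2, hy.2, k, h, hne⟩
      · -- leaves
        intro v hk hv
        have hpiece : ∀ x ∈ piece C out v v, Reach C out x v ∧ C.val v x = true := by
          intro x hx
          simp only [piece, mem_filter] at hx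
          exact hx.2
        have hcnt := cnt (piece C out v v) U ∅ (C.scope v) (U \ C.scope v) (fun _ => false)
          (by simp) (by
            intro k hk
            by_cases h1 : k ∈ C.scope v
            · exact mem_union_left _ (mem_union_right _ h1)
            · exact mem_union_right _ (mem_sdiff.2 ⟨hk, h1⟩))
        refine hcnt.trans ?_
        refine Nat.mul_le_mul (Nat.pow_le_pow_right (by norm_num) ?_) ?_
        · have := (C.leaf_ok v hk).1
          omega
        · exact hN v hv _ fun x hx => (hpiece x hx).1
    · -- all accepted inputs agree on the scope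
      rcases (acc C out).eq_empty_or_nonempty with hemp | ⟨x0, hx0⟩
      · rw [hemp]; simp
      have hx0' : C.val out x0 = true := (mem_filter.1 hx0).2
      have hF : (U \ C.scope out).card ≤ t + 1 := by
        by_contra hlt
        push Not at hlt
        apply hno
        refine free_cube (F := U \ C.scope out) sdiff_subset (by omega) x0 ?_
        intro p hp
        show C.val out p = true
        rw [C.dep out p x0 (fun k hk => hp k (fun hk' => (mem_sdiff.1 hk').2 hk))]
        exact hx0'
      have hcnt := cnt (acc C out) U (C.scope out) (U \ C.scope out) ∅ x0 (by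
          intro x hx k hk
          by_contra hne
          exact hPhi ⟨x, x0, (mem_filter.1 hx).2, hx0', k, hk, hne⟩) (by
          intro k hk
          by_cases h1 : k ∈ C.scope out
          · exact mem_union_left _ (mem_union_left _ h1)
          · exact mem_union_left _ (mem_union_right _ (mem_sdiff.2 ⟨hk, h1⟩)))
      refine hcnt.trans ?_
      have h1 : ((acc C out).image (res (∅ : Finset (Fin n)))).card ≤ 1 := by
        refine card_le_one.2 ?_
        intro p hp q hq
        obtain ⟨x, -, rfl⟩ := mem_image.1 hp
        obtain ⟨y, -, rfl⟩ := mem_image.1 hq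
        exact res_eq (by simp)
      have h2 : 2 ^ (U \ C.scope out).card * ((acc C out).image (res (∅ : Finset (Fin n)))).card ≤
          2 ^ (t + 1) * 1 := Nat.mul_le_mul (Nat.pow_le_pow_right (by norm_num) hF) h1
      refine h2.trans ?_
      rw [mul_one]
      refine Nat.pow_le_pow_left ?_ _
      calc 2 = 2 ^ 1 * 1 := by norm_num
        _ ≤ 2 ^ (w + 3 * (t + 1) + 3) * s :=
          Nat.mul_le_mul (Nat.pow_le_pow_right (by norm_num) (by omega)) hs

end Pool.Agent.Y417.DN
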