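import Pool.Agent.Y382.DN.Stm2
import Pool.Agent.Y899.DN.CTX

/-!
Project DN (owner helper382), part GRD: accepted sets of decomposable circuits without a product of
stars are small.
-/

set_option autoImplicit false

namespace Pool.Agent.Y417.DN

open Finset Pool.Agent.Y622.NG Pool.Agent.Y382.DN

theorem nty_add {n r : ℕ} (τ : Fin n → Fin r) (i : Fin r) {A U : Finset (Fin n)} (h : A ⊆ U) :
    nty τ i A + nty τ i (U \ A) = nty τ i U := by
  unfold nty
  rw [← card_union_of_disjoint]
  · congr 1
    ext k
    simp only [mem_union, mem_filter, mem_sdiff]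
    constructor
    · rintro (⟨h1, h2⟩ | ⟨⟨h1, -⟩, h2⟩)
      · exact ⟨h h1, h2⟩
      · exact ⟨h1, h2⟩
    · rintro ⟨h1, h2⟩
      by_cases hk : k ∈ A
      · exact Or.inl ⟨hk, h2⟩
      · exact Or.inr ⟨⟨h1, hk⟩, h2⟩
  · rw [disjoint_left]
    intro k hk hk'
    exact (mem_sdiff.1 (mem_filter.1 hk').1).2 (mem_filter.1 hk).1

theorem bd_empty (hC : S_GCNT) {n r : ℕ} (τ : Fin n → Fin r) (j : Fin r) (U : Finset (Fin n))
    (P : Finset (Fin n → Bool)) : BdU τ j U ∅ P 1 :=
  hC.2.2.1 n r τ j U ∅ P 1 (empty_subset _) (by simp)

theorem prod_le {n : ℕ} (hP : S_GPRD) {U A : Finset (Fin n)} {P : Finset (Fin n → Bool)}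
    {a b : ℕ} (h1 : (P.image (res A)).card ≤ a) (h2 : (P.image (res (U \ A))).card ≤ b) :
    (P.image (res U)).card ≤ a * b :=
  (hP n U A (U \ A) P fun k hk => by
    by_cases h : k ∈ A
    · exact Or.inl h
    · exact Or.inr (mem_sdiff.2 ⟨hk, h⟩)).trans (Nat.mul_le_mul h1 h2)

theorem t_GRD : S_GCNT → S_GPRD → S_GFREE → S_GFREE2 → S_GJOIN → S_GRD := by
  intro hC hP hF hF2 hJ r N w d hN
  induction d with
  | zero =>
    refine ⟨N, ?_⟩
    intro n s M τ C out U J hcard hU hM hno
    obtain ⟨j, rfl⟩ := card_eq_one.1 (by simpa using hcard)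
    have hstar : ¬ StarG τ j N U (fun x => C.val out x = true) := by
      rintro ⟨f, f1, f2, f3⟩
      apply hno
      refine ⟨fun _ => U, fun _ => f, fun _ => false, fun _ _ => subset_rfl, ?_, ?_, ?_, ?_⟩
      · intro e he e' he' hne
        rw [mem_singleton] at he he'
        exact absurd (he.trans he'.symm) hne
      · intro e he i i' k hk hke
        rw [mem_singleton] at he
        exact f2 i i' k hk (hke.trans he)
      · intro e _ i i' hne
        exact f3 i i' hne
      · intro y _ h2
        obtain ⟨i, hi⟩ := h2 j (mem_singleton_self j)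
        rw [← f1 i]
        exact C.dep out _ _ fun k hk => hi k (hU hk)
    have h1 := hC.2.1 n r τ j U U N _ (acc C out) subset_rfl hstar fun x hx => mem_acc.1 hx
    have h2 := hC.1 n r τ j U U ∅ ∅ (acc C out) N 1 1 (fun k hk => Or.inl hk) h1
      (bd_empty hC τ j U _) (bd_empty hC τ j U _)
    refine h2.trans ?_
    rw [mul_one, mul_one, pow_zero, mul_one]
    exact Nat.mul_le_mul_left _ (Nat.pow_le_pow_right (by norm_num)
      (hM j (mem_singleton_self j)))
  | succ d ih =>
    obtain ⟨K, hK⟩ := ih
    obtain ⟨R, hR⟩ : ∃ R, R = r * ((d + 1 + 1) * N) := ⟨_, rfl⟩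
    obtain ⟨L, hL⟩ : ∃ L, L = N ^ 2 * 2 ^ R * 2 ^ w * (K + 1) * 4 ^ d := ⟨_, rfl⟩
    refine ⟨2 * L, ?_⟩
    intro n s M τ C out U J hcard hU hM hno
    have hs : 1 ≤ s := by have := out.2; omega
    have hJne : J.Nonempty := card_pos.1 (by omega)
    have hw1 : 1 ≤ 2 ^ w := Nat.one_le_two_pow
    have hR1 : 1 ≤ 2 ^ R := Nat.one_le_two_pow
    have h41 : 1 ≤ 4 ^ d := Nat.one_le_pow _ _ (by norm_num)
    have hN2 : N ≤ N ^ 2 := Nat.le_self_pow (by norm_num) _
    have hN21 : 1 ≤ N ^ 2 := hN.trans hN2
    have hsd : 1 ≤ s ^ d := Nat.one_le_pow _ _ hs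
    -- comparison of constants
    have cmp1 : N ^ 2 * 2 ^ R ≤ L := by
      rw [hL]
      calc N ^ 2 * 2 ^ R = N ^ 2 * 2 ^ R * 1 * 1 * 1 := by ring
        _ ≤ N ^ 2 * 2 ^ R * 2 ^ w * (K + 1) * 4 ^ d :=
          Nat.mul_le_mul (Nat.mul_le_mul (Nat.mul_le_mul_left _ hw1) (by omega)) h41
    have cmp2 : ∀ a, a ≤ N ^ 2 * 2 ^ R * 2 ^ w → a * (K * 4 ^ d) ≤ L := by
      intro a ha
      rw [hL, mul_assoc (N ^ 2 * 2 ^ R * 2 ^ w)]
      exact Nat.mul_le_mul ha (Nat.mul_le_mul_right _ (by omega))
    -- the final form of the two kinds of bounds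
    have fin1 : ∀ (c : ℕ) (i : Fin r), i ∈ J → c ≤ N ^ 2 * 2 ^ R * 2 ^ nty τ i U →
        c ≤ L * s ^ d * 2 ^ M := by
      intro c i hi hc
      refine hc.trans (Nat.mul_le_mul ?_ (Nat.pow_le_pow_right (by norm_num) (hM i hi)))
      exact cmp1.trans (Nat.le_mul_of_pos_right _ hsd)
    let Heavy : Fin s → Prop := fun v => ∃ j ∈ J, StarG τ j N (C.scope v) (fun x => C.val v x = true)
    by_cases hout : Heavy out
    · -- the circuit of the context of a heavy gate
      have hctx : ∀ v : Fin s, Heavy v → C.scope v ⊆ U → ∃ i ∈ J, ∀ S : Finset (Fin n → Bool),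
          (∀ x ∈ S, Reach C out x v) → (S.image (res (U \ C.scope v))).card ≤
            K * (4 * s) ^ d * 2 ^ nty τ i (U \ C.scope v) := by
        rintro v ⟨j, hj, hst⟩ hvU
        obtain ⟨C', o, hdis, hsub, hval⟩ := Pool.Agent.Y899.DN.CTX.t_CTX n s w C out v
        have hne : (J.erase j).Nonempty := card_pos.1 (by rw [card_erase_of_mem hj]; omega)
        obtain ⟨i, hi, hmax⟩ := exists_max_image (J.erase j)
          (fun i => nty τ i (U \ C.scope v)) hne
        have h1 := hK n (4 * s) (nty τ i (U \ C.scope v)) τ C' o (U \ C.scope v) (J.erase j)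
          (by rw [card_erase_of_mem hj, hcard]; rfl)
          (fun k hk => mem_sdiff.2 ⟨hU (hsub hk), fun hk' => (disjoint_left.1 hdis) hk hk'⟩)
          hmax (by
            intro htri
            apply hno
            refine hJ n s w r N τ J j U C out v hj hvU hst ?_
            obtain ⟨T, f, z, t1, t2, t3, t4, t5⟩ := htri
            exact ⟨T, f, z, t1, t2, t3, t4, fun y hy1 hy2 => (hval y).1 (t5 y hy1 hy2)⟩)
        refine ⟨i, mem_of_mem_erase hi, fun S hS => le_trans (card_le_card ?_) h1⟩
        apply image_subset_image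
        intro x hx
        exact mem_acc.2 ((hval x).2 (hS x hx))
      -- products
      have fin2 : ∀ (v : Fin s) (i : Fin r) (S : Finset (Fin n → Bool)) (c : ℕ), i ∈ J →
          C.scope v ⊆ U →
          (S.image (res (U \ C.scope v))).card ≤ K * (4 * s) ^ d * 2 ^ nty τ i (U \ C.scope v) →
          c ≤ N ^ 2 * 2 ^ R * 2 ^ w →
          (S.image (res (C.scope v))).card ≤ c * 2 ^ nty τ i (C.scope v) →
          (S.image (res U)).card ≤ L * s ^ d * 2 ^ M := by
        intro v i S c hi hvU h1 hc h2
        refine (prod_le hP h2 h1).trans ?_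
        calc c * 2 ^ nty τ i (C.scope v) *
              (K * (4 * s) ^ d * 2 ^ nty τ i (U \ C.scope v))
            = (c * (K * 4 ^ d)) * s ^ d *
              2 ^ (nty τ i (C.scope v) + nty τ i (U \ C.scope v)) := by
              rw [mul_pow, pow_add]; ring
          _ ≤ L * s ^ d * 2 ^ M := by
              rw [nty_add τ i hvU]
              exact Nat.mul_le_mul (Nat.mul_le_mul_right _ (cmp2 c hc))
                (Nat.pow_le_pow_right (by norm_num) (hM i hi))
      have hwalk := t_WALK n s w C out Heavy (L * s ^ d * 2 ^ M) (res U) hout ?_ ?_ ?_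
      · refine hwalk.trans (le_of_eq ?_)
        rw [pow_succ]
        ring
      · -- disjunctions
        intro v β hor hv hc
        obtain ⟨hlt, hsub, himp⟩ := ch_prop C hor β
        rcases (piece C out v (ch C v β)).eq_empty_or_nonempty with he | ⟨x0, hx0⟩
        · rw [he]; simp
        · rw [mem_piece] at hx0
          obtain ⟨hsv, hr2, -⟩ := t_REACH n s w C out v x0 hx0.1
          have hvU : C.scope v ⊆ U := hsv.trans hU
          obtain ⟨c, hcdef⟩ : ∃ c, c = ch C v β := ⟨_, rfl⟩
          rw [← hcdef] at hc hlt hsub himp hx0 ⊢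
          have hFU : C.scope v \ C.scope c ⊆ U := sdiff_subset.trans hvU
          have hfree := hF n r N τ J U (C.scope v \ C.scope c) (fun x => C.val out x = true) x0 hFU
            hJne (fun y hy => by
              have h1 : Reach C out y v := hr2 y fun k hk => (hy k fun h =>
                hk (mem_sdiff.1 h).1).symm
              refine (t_REACH n s w C out v y h1).2.2 (himp y ?_)
              rw [← hx0.2]
              exact C.dep c _ _ fun k hk => hy k fun h => (mem_sdiff.1 h).2 hk) hno
          rw [hcard, ← hR] at hfree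
          rcases hfree with hfree | ⟨i, hi, hi1, hi2⟩
          · -- few free coordinates
            obtain ⟨i, hi, hS⟩ := hctx v hv hvU
            refine fin2 v i _ (N * 2 ^ R * 1) hi hvU (hS _ fun x hx => (mem_piece.1 hx).1) ?_ ?_
            · exact Nat.mul_le_mul (Nat.mul_le_mul_right _ hN2) hw1
            · refine hC.1 n r τ i (C.scope v) (C.scope c) (C.scope v \ C.scope c) ∅ _ N (2 ^ R) 1
                ?_ ?_ ?_ (bd_empty hC _ _ _ _)
              · intro k hk
                by_cases h : k ∈ C.scope c
                · exact Or.inl h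
                · exact Or.inr (Or.inl (mem_sdiff.2 ⟨hk, h⟩))
              · exact hC.2.1 n r τ i (C.scope v) (C.scope c) N (fun x => C.val c x = true) _ hsub
                  (fun h => hc ⟨i, hi, h⟩) fun x hx => (mem_piece.1 hx).2
              · exact hC.2.2.1 n r τ i (C.scope v) _ _ (2 ^ R) sdiff_subset
                  (Nat.pow_le_pow_right (by norm_num) (by omega))
          · -- many free coordinates of type `i`
            obtain ⟨C', o, hdis, hosub, hval⟩ := Pool.Agent.Y899.DN.CTX.t_CTX n s w C out v
            have hlight : ¬ StarG τ i N (U \ C.scope v) (fun x => Reach C out x v) := by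
              intro hst
              apply hno
              refine hF2 n r N τ J i U (C.scope v \ C.scope c) (U \ C.scope v) _
                (fun x => Reach C out x v) x0 hFU sdiff_subset ?_ hi (by rw [hcard]; exact hi1) hst ?_
              · rw [disjoint_left]
                intro k hk hk'
                exact (mem_sdiff.1 hk').2 (mem_sdiff.1 hk).1
              · intro x hx y hy1 hy2
                have h1 : Reach C out y v := by
                  rw [← hval]
                  rw [← hval] at hx
                  rw [← hx]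
                  exact C'.dep o _ _ fun k hk => hy1 k (mem_sdiff.2 ⟨hU (hosub hk), fun hk' =>
                    (disjoint_left.1 hdis) hk hk'⟩)
                refine (t_REACH n s w C out v y h1).2.2 (himp y ?_)
                rw [← hx0.2]
                exact C.dep c _ _ fun k hk => hy2 k (fun h => (mem_sdiff.1 h).2 hk)
                  fun h => (mem_sdiff.1 h).2 (hsub hk)
            refine fin1 _ i hi ?_
            have h1 := hC.1 n r τ i U (C.scope c) (C.scope v \ C.scope c) (U \ C.scope v)
              (piece C out v c) N (2 ^ R) N ?_ ?_ ?_ ?_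
            · refine h1.trans (le_of_eq ?_)
              ring
            · intro k hk
              by_cases h : k ∈ C.scope c
              · exact Or.inl h
              · by_cases h' : k ∈ C.scope v
                · exact Or.inr (Or.inl (mem_sdiff.2 ⟨h', h⟩))
                · exact Or.inr (Or.inr (mem_sdiff.2 ⟨hk, h'⟩))
            · exact hC.2.1 n r τ i U (C.scope c) N (fun x => C.val c x = true) _ (hsub.trans hvU)
                (fun h => hc ⟨i, hi, h⟩) fun x hx => (mem_piece.1 hx).2
            · exact hC.2.2.1 n r τ i U _ _ (2 ^ R) hFU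
                (Nat.pow_le_pow_right (by norm_num) hi2)
            · exact hC.2.1 n r τ i U (U \ C.scope v) N (fun x => Reach C out x v) _ sdiff_subset
                hlight fun x hx => (mem_piece.1 hx).1
      · -- conjunctions
        intro v a b hk hv hna hnb
        obtain ⟨ha, hb, hs', hd, hval⟩ := C.and_ok v a b hk
        rcases (piece C out v v).eq_empty_or_nonempty with he | ⟨x0, hx0⟩
        · rw [he]; simp
        · rw [mem_piece] at hx0
          obtain ⟨hsv, -, -⟩ := t_REACH n s w C out v x0 hx0.1
          have hvU : C.scope v ⊆ U := hsv.trans hU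
          have hvv : ∀ x ∈ piece C out v v, C.val a x = true ∧ C.val b x = true := by
            intro x hx
            have := (mem_piece.1 hx).2
            rw [hval, Bool.and_eq_true] at this
            exact this
          have hsa : C.scope a ⊆ C.scope v := by rw [hs']; exact subset_union_left
          have hsb : C.scope b ⊆ C.scope v := by rw [hs']; exact subset_union_right
          obtain ⟨i, hi, hS⟩ := hctx v hv hvU
          refine fin2 v i _ (N * N * 1) hi hvU (hS _ fun x hx => (mem_piece.1 hx).1) ?_ ?_
          · calc N * N * 1 = N ^ 2 * 1 * 1 := by ring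
              _ ≤ N ^ 2 * 2 ^ R * 2 ^ w := Nat.mul_le_mul (Nat.mul_le_mul_left _ hR1) hw1
          · refine hC.1 n r τ i (C.scope v) (C.scope a) (C.scope b) ∅ _ N N 1 ?_ ?_ ?_
              (bd_empty hC _ _ _ _)
            · intro k hk
              rw [hs', mem_union] at hk
              rcases hk with hk | hk
              · exact Or.inl hk
              · exact Or.inr (Or.inl hk)
            · exact hC.2.1 n r τ i (C.scope v) (C.scope a) N (fun x => C.val a x = true) _ hsa
                (fun h => hna ⟨i, hi, h⟩) fun x hx => (hvv x hx).1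
            · exact hC.2.1 n r τ i (C.scope v) (C.scope b) N (fun x => C.val b x = true) _ hsb
                (fun h => hnb ⟨i, hi, h⟩) fun x hx => (hvv x hx).2
      · -- leaves
        intro v hk hv
        rcases (piece C out v v).eq_empty_or_nonempty with he | ⟨x0, hx0⟩
        · rw [he]; simp
        · rw [mem_piece] at hx0
          obtain ⟨hsv, -, -⟩ := t_REACH n s w C out v x0 hx0.1
          have hvU : C.scope v ⊆ U := hsv.trans hU
          obtain ⟨i, hi, hS⟩ := hctx v hv hvU
          refine fin2 v i _ (2 ^ w) hi hvU (hS _ fun x hx => (mem_piece.1 hx).1) ?_ ?_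
          · calc 2 ^ w = 1 * 1 * 2 ^ w := by ring
              _ ≤ N ^ 2 * 2 ^ R * 2 ^ w := Nat.mul_le_mul_right _ (Nat.mul_le_mul hN21 hR1)
          · refine (card_res _ _).trans ?_
            calc 2 ^ (C.scope v).card ≤ 2 ^ w :=
                  Nat.pow_le_pow_right (by norm_num) (C.leaf_ok v hk).1
              _ ≤ 2 ^ w * 2 ^ nty τ i (C.scope v) := Nat.le_mul_of_pos_right _ (by positivity)
    · -- the root is not heavy
      have h1 : ((acc C out).image (res U)).card ≤ L * s ^ d * 2 ^ M := by
        rcases (acc C out).eq_empty_or_nonempty with he | ⟨x0, hx0⟩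
        · rw [he]; simp
        · rw [mem_acc] at hx0
          have hfree := hF n r N τ J U (U \ C.scope out) (fun x => C.val out x = true) x0
            sdiff_subset hJne (fun y hy => by
              show C.val out y = true
              rw [← hx0]
              exact C.dep out _ _ fun k hk => hy k fun h => (mem_sdiff.1 h).2 hk) hno
          rw [hcard, ← hR] at hfree
          obtain ⟨i, hi, hi2⟩ : ∃ i ∈ J,
              (U \ C.scope out).card - nty τ i (U \ C.scope out) ≤ R := by
            rcases hfree with hfree | ⟨i, hi, -, hi2⟩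
            · obtain ⟨i, hi⟩ := hJne
              exact ⟨i, hi, by omega⟩
            · exact ⟨i, hi, hi2⟩
          refine fin1 _ i hi ?_
          have h1 := hC.1 n r τ i U (C.scope out) (U \ C.scope out) ∅ (acc C out) N (2 ^ R) 1
            ?_ ?_ ?_ (bd_empty hC _ _ _ _)
          · refine h1.trans ?_
            refine Nat.mul_le_mul_right _ ?_
            calc N * 2 ^ R * 1 = N * 2 ^ R := mul_one _
              _ ≤ N ^ 2 * 2 ^ R := Nat.mul_le_mul_right _ hN2
          · intro k hk
            by_cases h : k ∈ C.scope out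
            · exact Or.inl h
            · exact Or.inr (Or.inl (mem_sdiff.2 ⟨hk, h⟩))
          · exact hC.2.1 n r τ i U (C.scope out) N (fun x => C.val out x = true) _ hU
              (fun h => hout ⟨i, hi, h⟩) fun x hx => mem_acc.1 hx
          · exact hC.2.2.1 n r τ i U _ _ (2 ^ R) sdiff_subset
              (Nat.pow_le_pow_right (by norm_num) hi2)
      refine h1.trans ?_
      calc L * s ^ d * 2 ^ M ≤ (2 * s) * (L * s ^ d * 2 ^ M) :=
            Nat.le_mul_of_pos_left _ (by omega)
        _ = _ := by rw [pow_succ]; ring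

end Pool.Agent.Y417.DN
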